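import Pool.Agent.H44.V0F.S5

/-!
# Bounded coefficients of own paths; the codes of order at least two

`cfb_stmt : CfbStmt`, `k9_stmt : K9Stmt`.
-/

set_option autoImplicit false

namespace Pool.V0C62

open Finset Real MvPolynomial
open Pool.Agent.H49.Ent Pool.Agent.H32.Dense Pool.STK Pool.KA Pool.KSAT Pool.K2S Pool.PB Pool.GEN
open Pool.S6C Pool.RCD Pool.LA91 Pool.OWN68 Pool.AVG96
open Pool.AVG71 (cod)
open Pool.AJW (CfB)
open Pool.AVG57 (upw upw_slam)
open Pool.AVG5 (jt jt_le co_le CH_fam)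
open Pool.GRD (LbP)
open Pool.BFL (Pb)
open Pool.PB.Trl (rt rt_mem)
open Pool.V0F (CfbStmt K9Stmt)

variable {m : ℕ}

/-- The union bound. -/
theorem Pb_un {Ω : Type} [Fintype Ω] {p : Ω → ℝ} (hp : IsLaw p) {ι : Type} [DecidableEq ι]
    (s : Finset ι) (Q : ι → Ω → Prop) {e : ℝ} (h : ∀ i ∈ s, Pb p (Q i) ≤ e) :
    Pb p (fun ω => ∃ i ∈ s, Q i ω) ≤ s.card * e := by
  classical
  unfold Pb at h ⊢
  refine le_trans (Finset.sum_le_sum (g := fun ω => ∑ i ∈ s, if Q i ω then p ω else 0)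
    fun ω _ => ?_) ?_
  · have h0 : ∀ j ∈ s, 0 ≤ if Q j ω then p ω else 0 := fun j _ => by
      split_ifs
      · exact hp.nonneg ω
      · exact le_rfl
    split_ifs with h1
    · obtain ⟨i, hi, hq⟩ := h1
      have h2 := Finset.single_le_sum (f := fun i => if Q i ω then p ω else 0) h0 hi
      rw [if_pos hq] at h2
      exact h2
    · exact Finset.sum_nonneg h0
  · rw [Finset.sum_comm]
    refine (Finset.sum_le_sum (g := fun _ => e) fun i hi => ?_).trans (le_of_eq ?_)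
    · refine le_trans (le_of_eq ?_) (h i hi)
      refine Finset.sum_congr rfl fun ω _ => ?_
      by_cases hq : Q i ω
      · simp only [hq, if_true]
      · simp only [hq, if_false]
    · rw [Finset.sum_const, nsmul_eq_mul]

/-- The jets of the own path over labels of an earlier window, at a later window. -/
theorem jt_upw {J : ℕ} (F : Fam m J) {b W : ℕ} (hb : b ≤ W) (hW : W ≤ J) {V : Type}
    (z' : LnT F → V) (G : V → MvPolynomial (Option (Fin m)) ℝ) (κ : Fin m) (ω : F.Ω) (j : ℕ) :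
    jt (dv W (fun s (_ : Fin m) => G (z' (upw b W s))) κ (slam F W ω)) (rt F W ω) j =
      ojet F κ j (G (z' (slam F b ω))) ω / ((j.factorial : ℝ) * (2 ^ W) ^ j) := by
  have h1 := Pool.AVG57.ojet_tay F hW ω κ (fun s (_ : Fin m) => G (z' (upw b W s))) j
  rw [upw_slam F hb hW ω] at h1
  exact h1

theorem rt_abs {J : ℕ} (F : Fam m J) (W : ℕ) (ω : F.Ω) : |rt F W ω| ≤ 1 := by
  have h2 := rt_mem F W ω
  rw [abs_le]
  constructor <;> linarith [h2.1, h2.2]

/-- **(CFB)** -/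
theorem cfb_stmt : CfbStmt := by
  classical
  intro m S C₀ htm hpos D N E w I κ hE hw
  have hl2 : 0 < Real.log 2 := Real.log_pos one_lt_two
  obtain ⟨η, hη⟩ : ∃ η : ℝ, η = 1 / (2 * ((N : ℝ) + 1) * ((D : ℝ) + 2)) := ⟨_, rfl⟩
  have hη0 : 0 < η := by
    rw [hη]
    positivity
  have hbas : Bas S (fun J F A => ∀ k < N, ∀ j < D + 2, ∀ (P : ℕ) (V : Type) (z : PtT F → V)
      (z' : LnT F → V) (G : V → MvPolynomial (Option (Fin m)) ℝ),
      LbP F (I k) (κ k) D J ⌊w k * J⌋₊ P A z z' G →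
      Pb (Pool.Agent.H49.Ent.cond F.p A True) (fun ω =>
        ¬ |ojet F (κ k) j (G (z' (slam F ⌊w k * J⌋₊ ω))) ω| ≤
          2 ^ ((E / 2 + j * w k) * J) * (1 / 2 ^ P)) ≤ η) :=
    Bas.all N fun k hk => Bas.all (D + 2) fun j _ =>
      own_cls htm (I k) (κ k) j D (hw k hk).1 (hw k hk).2 hη0 (half_pos hE)
  obtain ⟨J₂, hJ₂⟩ := exists_nat_ge (((2 * (D + 2) : ℕ) : ℝ) / (E / 2))
  refine Bas.mono J₂ (hbas.and (pos_bas hpos)) ?_
  rintro J hJ F A ⟨hb, hA⟩ P V z z' G hlb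
  have hJ0 : (0 : ℝ) ≤ J := Nat.cast_nonneg J
  have hJ2 : ((2 * (D + 2) : ℕ) : ℝ) ≤ E / 2 * J := by
    have h1 : (J₂ : ℝ) ≤ J := by exact_mod_cast hJ
    have h2 := hJ₂.trans h1
    rw [div_le_iff₀ (by positivity)] at h2
    linarith
  have hlaw := isLaw_cond F.isLaw hA
  obtain ⟨Bad, hBad⟩ : ∃ Bad : F.Ω → Prop, Bad = fun ω =>
      ∃ i ∈ (Finset.range N ×ˢ Finset.range (D + 2)),
        ¬ |ojet F (κ i.1) i.2 (G i.1 (z' i.1 (slam F ⌊w i.1 * J⌋₊ ω))) ω| ≤
          2 ^ ((E / 2 + i.2 * w i.1) * J) * (1 / 2 ^ P i.1) := ⟨_, rfl⟩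
  have hPB : Pb (Pool.Agent.H49.Ent.cond F.p A True) Bad ≤ 1 / 2 := by
    rw [hBad]
    refine (Pb_un hlaw (Finset.range N ×ˢ Finset.range (D + 2)) _ (e := η) ?_).trans ?_
    · rintro ⟨k, j⟩ hi
      rw [Finset.mem_product, Finset.mem_range, Finset.mem_range] at hi
      exact hb k hi.1 j hi.2 (P k) (V k) (z k) (z' k) (G k) (hlb k hi.1)
    · rw [Finset.card_product, Finset.card_range, Finset.card_range, hη, mul_one_div,
        div_le_div_iff₀ (by positivity) (by norm_num)]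
      push_cast
      nlinarith [(Nat.cast_nonneg N : (0 : ℝ) ≤ N), (Nat.cast_nonneg D : (0 : ℝ) ≤ D)]
  refine ⟨fun ω => A ω ∧ ¬ Bad ω, fun ω h => h.1, ?_, ?_⟩
  · have h1 : Pb (Pool.Agent.H49.Ent.cond F.p A True) Bad = Pe F.p (fun ω => A ω ∧ Bad ω) /
        Pe F.p A := Pb_cond hA Bad
    rw [h1, div_le_iff₀ hA] at hPB
    have h2 : Pe F.p A = Pe F.p (fun ω => A ω ∧ Bad ω) + Pe F.p (fun ω => A ω ∧ ¬ Bad ω) := by
      show law F.p A True = law F.p _ True + law F.p _ True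
      unfold law
      rw [← Finset.sum_add_distrib]
      refine Finset.sum_congr rfl fun ω _ => ?_
      by_cases h3 : A ω
      · by_cases h4 : Bad ω
        · simp [h3, h4]
        · simp [h3, h4]
      · simp [h3]
    linarith
  · rintro k hk ω ⟨hω, hnb⟩ a
    obtain ⟨W, hW⟩ : ∃ W, W = ⌊w k * J⌋₊ := ⟨_, rfl⟩
    have hWJ : W ≤ J := by rw [hW]; exact floor_le (hw k hk).2.le J
    have hwW : w k * J ≤ W + 1 := by
      rw [hW]
      exact (Nat.lt_floor_add_one _).le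
    rw [← hW]
    obtain ⟨Q, hQ⟩ : ∃ Q, Q = dv W (fun s (_ : Fin m) => G k (z' k s)) (κ k) (slam F W ω) :=
      ⟨_, rfl⟩
    rw [← hQ]
    have hQd : Q.natDegree ≤ D + 1 := by
      rw [hQ]
      exact natDegree_dv W (K := D) (G := fun s (_ : Fin m) => G k (z' k s))
        (fun s _ => (hlb k hk).deg _) _ _
    have hjt : ∀ i, a ≤ i → |jt Q (rt F W ω) i| ≤ 2 ^ (D + 2) * 2 ^ (E / 2 * J) := by
      intro i _
      rcases Nat.lt_or_ge i (D + 2) with hi | hi
      swap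
      · have e0 : jt Q (rt F W ω) i = 0 := by
          unfold jt
          refine Polynomial.coeff_eq_zero_of_natDegree_lt ?_
          rw [Polynomial.natDegree_taylor]
          omega
        rw [e0, abs_zero]
        positivity
      have e1 : jt Q (rt F W ω) i = ojet F (κ k) i (G k (z' k (slam F W ω))) ω /
          ((i.factorial : ℝ) * (2 ^ W) ^ i) := by
        rw [hQ]
        exact Pool.AVG57.ojet_tay F hWJ ω (κ k) (fun s (_ : Fin m) => G k (z' k s)) i
      have h1 : |ojet F (κ k) i (G k (z' k (slam F W ω))) ω| ≤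
          2 ^ ((E / 2 + i * w k) * J) * (1 / 2 ^ P k) := by
        by_contra hcon
        refine hnb ?_
        rw [hBad]
        refine ⟨(k, i), ?_, ?_⟩
        · rw [Finset.mem_product, Finset.mem_range, Finset.mem_range]
          exact ⟨hk, hi⟩
        · dsimp only
          rw [← hW]
          exact hcon
      have hf1 : (1 : ℝ) ≤ (i.factorial : ℝ) := by
        exact_mod_cast Nat.one_le_iff_ne_zero.2 (Nat.factorial_ne_zero i)
      rw [e1, abs_div, abs_of_pos (by positivity : (0 : ℝ) < (i.factorial : ℝ) * (2 ^ W) ^ i),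
        div_le_iff₀ (by positivity)]
      have h2 : (1 : ℝ) / 2 ^ P k ≤ 1 := by
        rw [div_le_one (by positivity)]
        exact one_le_pow₀ (by norm_num)
      have h3 : (2 : ℝ) ^ ((E / 2 + i * w k) * J) ≤ 2 ^ (E / 2 * J) * (2 ^ i * (2 ^ W) ^ i) := by
        have e2 : (2 : ℝ) ^ (E / 2 * J) * (2 ^ i * (2 ^ W) ^ i) =
            2 ^ (E / 2 * J + (i + W * i)) := by
          rw [Real.rpow_add (by norm_num), Real.rpow_add (by norm_num), Real.rpow_natCast,
            ← Nat.cast_mul, Real.rpow_natCast, pow_mul]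
        rw [e2]
        refine Real.rpow_le_rpow_of_exponent_le (by norm_num) ?_
        have h4 : (i : ℝ) * (w k * J) ≤ i * (W + 1) :=
          mul_le_mul_of_nonneg_left hwW (Nat.cast_nonneg i)
        nlinarith
      have h5 : (2 : ℝ) ^ i ≤ 2 ^ (D + 2) := pow_le_pow_right₀ (by norm_num) hi.le
      calc |ojet F (κ k) i (G k (z' k (slam F W ω))) ω|
          ≤ 2 ^ ((E / 2 + i * w k) * J) * (1 / 2 ^ P k) := h1
        _ ≤ 2 ^ ((E / 2 + i * w k) * J) * 1 := mul_le_mul_of_nonneg_left h2 (by positivity)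
        _ ≤ 2 ^ (E / 2 * J) * (2 ^ i * (2 ^ W) ^ i) := by rw [mul_one]; exact h3
        _ ≤ 2 ^ (E / 2 * J) * (2 ^ (D + 2) * ((i.factorial : ℝ) * (2 ^ W) ^ i)) := by
            refine mul_le_mul_of_nonneg_left (mul_le_mul h5 ?_ (by positivity) (by positivity))
              (by positivity)
            nlinarith [(by positivity : (0 : ℝ) < (2 ^ W) ^ i)]
        _ = 2 ^ (D + 2) * 2 ^ (E / 2 * J) * ((i.factorial : ℝ) * (2 ^ W) ^ i) := by ring
    refine (co_le hQd (rt_abs F W ω) (by positivity) hjt).trans ?_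
    have e3 : (2 : ℝ) ^ (D + 1 + 1) * (2 ^ (D + 2) * 2 ^ (E / 2 * J)) =
        2 ^ (((2 * (D + 2) : ℕ) : ℝ) + E / 2 * J) := by
      rw [Real.rpow_add (by norm_num), Real.rpow_natCast]
      ring
    rw [e3]
    refine Real.rpow_le_rpow_of_exponent_le (by norm_num) ?_
    linarith

/-- **(K9)** -/
theorem k9_stmt : K9Stmt := by
  classical
  intro m S C₀ htm hpos K I κ b w p N E ε hb0 hbw hw1 hN hε
  have hl2 : 0 < Real.log 2 := Real.log_pos one_lt_two
  have hl21 : Real.log 2 ≤ 1 := by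
    have := Real.log_two_lt_d9
    linarith
  have hK2 : (0 : ℝ) < (K : ℝ) + 2 := by positivity
  obtain ⟨e₀, he⟩ : ∃ e₀ : ℝ, e₀ = ε / (8 * ((K : ℝ) + 2)) := ⟨_, rfl⟩
  have he0 : 0 < e₀ := by rw [he]; positivity
  -- the number of values
  obtain ⟨B, hB⟩ : ∃ B : ℝ, B = |N| + |E| := ⟨_, rfl⟩
  have hB0 : 0 ≤ B := by rw [hB]; positivity
  obtain ⟨M, hM⟩ : ∃ M : ℝ, M = B + 1 := ⟨_, rfl⟩
  have hM0 : 0 < M := by rw [hM]; linarith
  obtain ⟨η, hη⟩ : ∃ η : ℝ, η = ε / (4 * ((K : ℝ) + 2) * ((K : ℝ) + 2) * M) := ⟨_, rfl⟩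
  have hη0 : 0 < η := by rw [hη]; positivity
  obtain ⟨C, hC⟩ : ∃ C : ℝ, C = 2 ^ (2 * K + 4) := ⟨_, rfl⟩
  have hC1 : 1 ≤ C := by rw [hC]; exact one_le_pow₀ (by norm_num)
  refine ⟨e₀, he0, ?_⟩
  have hbas : Bas S (fun J F A => ∀ j < K + 2, ∀ (P : ℕ) (V : Type) (z : PtT F → V)
      (z' : LnT F → V) (G : V → MvPolynomial (Option (Fin m)) ℝ),
      LbP F I κ K J ⌊b * J⌋₊ P A z z' G →
      Pb (Pool.Agent.H49.Ent.cond F.p A True) (fun ω =>
        ¬ |ojet F κ j (G (z' (slam F ⌊b * J⌋₊ ω))) ω| ≤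
          2 ^ ((e₀ + j * b) * J) * (1 / 2 ^ P)) ≤ η) :=
    Bas.all (K + 2) fun j _ => own_cls htm I κ j K hb0 (hbw.trans_lt hw1) hη0 he0
  obtain ⟨J₂, hJ₂⟩ := exists_nat_ge ((Real.log 2 + Real.log (5 * C) + Real.log (4 * C)) /
    min (ε / (4 * ((K : ℝ) + 2))) 1)
  refine Bas.mono J₂ (hbas.and (pos_bas hpos)) ?_
  rintro J hJ F A ⟨hb, hA⟩ V z z' G hlb hcf W σ hwW hWJ hσ0 hσ
  have hJ0 : (0 : ℝ) ≤ J := Nat.cast_nonneg J
  have hmn : 0 < min (ε / (4 * ((K : ℝ) + 2))) 1 := lt_min (by positivity) one_pos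
  have hl5 : 0 < Real.log (5 * C) := Real.log_pos (by linarith)
  have hl4 : 0 < Real.log (4 * C) := Real.log_pos (by linarith)
  have hJ2 : Real.log 2 + Real.log (5 * C) + Real.log (4 * C) ≤
      min (ε / (4 * ((K : ℝ) + 2))) 1 * J := by
    have h1 : (J₂ : ℝ) ≤ J := by exact_mod_cast hJ
    have h2 := hJ₂.trans h1
    rw [div_le_iff₀ hmn] at h2
    linarith
  have f1 : Real.log 2 + Real.log (5 * C) ≤ ε / (4 * ((K : ℝ) + 2)) * J := by
    have := mul_le_mul_of_nonneg_right (min_le_left (ε / (4 * ((K : ℝ) + 2))) 1) hJ0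
    linarith
  have f2 : Real.log (4 * C) ≤ J := by
    have := mul_le_mul_of_nonneg_right (min_le_right (ε / (4 * ((K : ℝ) + 2))) 1) hJ0
    linarith
  have hlaw := isLaw_cond F.isLaw hA
  obtain ⟨wb, hwb⟩ : ∃ wb, wb = ⌊b * J⌋₊ := ⟨_, rfl⟩
  have hbW : wb ≤ W := by
    rw [hwb]
    exact (Nat.floor_le_floor (mul_le_mul_of_nonneg_right hbw hJ0)).trans hwW
  have hWw : w * J ≤ W + 1 := by
    have h1 := Nat.lt_floor_add_one (w * (J : ℝ))
    have h2 : ((⌊w * J⌋₊ : ℕ) : ℝ) ≤ W := by exact_mod_cast hwW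
    linarith
  obtain ⟨Q, hQ⟩ : ∃ Q : F.Ω → Polynomial ℝ, Q = fun ω =>
      dv W (fun s (_ : Fin m) => G (z' (upw wb W s))) κ (slam F W ω) := ⟨_, rfl⟩
  have hQd : ∀ ω, (Q ω).natDegree ≤ K + 1 := by
    intro ω
    rw [hQ]
    exact natDegree_dv W (K := K) (G := fun s (_ : Fin m) => G (z' (upw wb W s)))
      (fun s _ => hlb.deg _) _ _
  have hjt : ∀ ω j, jt (Q ω) (rt F W ω) j = ojet F κ j (G (z' (slam F wb ω))) ω /
      ((j.factorial : ℝ) * (2 ^ W) ^ j) := by
    intro ω j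
    rw [hQ]
    exact jt_upw F hbW hWJ z' G κ ω j
  have hvan : ∀ ω i, K + 2 ≤ i → jt (Q ω) (rt F W ω) i = 0 := by
    intro ω i hi
    unfold jt
    refine Polynomial.coeff_eq_zero_of_natDegree_lt ?_
    rw [Polynomial.natDegree_taylor]
    have := hQd ω
    omega
  -- the size on the whole event
  have hbig : ∀ ω, A ω → ∀ a, |(Q ω).coeff a| ≤ C * 2 ^ (E * J) := by
    intro ω hω a
    have h1 : ∀ i, a ≤ i → |jt (Q ω) (rt F W ω) i| ≤ 2 ^ (K + 2) * 2 ^ (E * J) := by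
      intro i _
      rw [hjt]
      have h3 : jt (dv wb (fun s (_ : Fin m) => G (z' s)) κ (slam F wb ω)) (rt F wb ω) i =
          ojet F κ i (G (z' (slam F wb ω))) ω / ((i.factorial : ℝ) * (2 ^ wb) ^ i) :=
        Pool.AVG57.ojet_tay F (hbW.trans hWJ) ω κ (fun s (_ : Fin m) => G (z' s)) i
      have h4 : |jt (dv wb (fun s (_ : Fin m) => G (z' s)) κ (slam F wb ω)) (rt F wb ω) i| ≤
          2 ^ (K + 1 + 1) * 2 ^ (E * J) :=
        jt_le (natDegree_dv wb (K := K) (G := fun s (_ : Fin m) => G (z' s))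
          (fun s _ => hlb.deg _) _ _) (rt_abs F wb ω) (by positivity) fun i' _ => by
            rw [hwb]
            exact hcf ω hω i'
      rw [h3, abs_div, abs_of_pos (by positivity : (0 : ℝ) < (i.factorial : ℝ) * (2 ^ wb) ^ i),
        div_le_iff₀ (by positivity)] at h4
      rw [abs_div, abs_of_pos (by positivity : (0 : ℝ) < (i.factorial : ℝ) * (2 ^ W) ^ i),
        div_le_iff₀ (by positivity)]
      refine h4.trans ?_
      refine mul_le_mul_of_nonneg_left (mul_le_mul_of_nonneg_left ?_ (by positivity))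
        (by positivity)
      exact pow_le_pow_left₀ (by positivity) (pow_le_pow_right₀ (by norm_num) hbW) i
    refine (co_le (hQd ω) (rt_abs F W ω) (by positivity) h1).trans (le_of_eq ?_)
    rw [hC]
    ring
  -- the bad event
  obtain ⟨Bad, hBad⟩ : ∃ Bad : F.Ω → Prop, Bad = fun ω => ∃ i ∈ Finset.range (K + 2),
      ¬ |ojet F κ i (G (z' (slam F wb ω))) ω| ≤
        2 ^ ((e₀ + i * b) * J) * (1 / 2 ^ ⌊(p - e₀) * J⌋₊) := ⟨_, rfl⟩
  have hPB : Pb (Pool.Agent.H49.Ent.cond F.p A True) Bad ≤ ((K : ℝ) + 2) * η := by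
    rw [hBad]
    refine (Pb_un hlaw (Finset.range (K + 2)) _ (e := η) ?_).trans ?_
    · intro j hj
      rw [Finset.mem_range] at hj
      rw [hwb]
      exact hb j hj _ V z z' G hlb
    · rw [Finset.card_range]
      push_cast
      exact le_rfl
  -- the size outside the bad event
  have hsml : ∀ ω, ¬ Bad ω → ∀ a, 2 ≤ a → |σ * (Q ω).coeff a| ≤ C * 2 ^ (2 * e₀ * J) := by
    intro ω hnb a ha
    have h1 : ∀ i, a ≤ i → |jt (Q ω) (rt F W ω) i| ≤
        2 ^ (K + 2) * 2 ^ ((2 * e₀ - N) * J) := by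
      intro i hai
      rcases Nat.lt_or_ge i (K + 2) with hi | hi
      swap
      · rw [hvan ω i hi, abs_zero]
        positivity
      have h2 : |ojet F κ i (G (z' (slam F wb ω))) ω| ≤
          2 ^ ((e₀ + i * b) * J) * (1 / 2 ^ ⌊(p - e₀) * J⌋₊) := by
        by_contra hcon
        refine hnb ?_
        rw [hBad]
        exact ⟨i, Finset.mem_range.2 hi, hcon⟩
      have h3 := ip2_le ((p - e₀) * J)
      have hf1 : (1 : ℝ) ≤ (i.factorial : ℝ) := by
        exact_mod_cast Nat.one_le_iff_ne_zero.2 (Nat.factorial_ne_zero i)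
      rw [hjt, abs_div, abs_of_pos (by positivity : (0 : ℝ) < (i.factorial : ℝ) * (2 ^ W) ^ i),
        div_le_iff₀ (by positivity)]
      have h4 : (2 : ℝ) ^ ((e₀ + i * b) * J) * (2 * 2 ^ (-((p - e₀) * J))) ≤
          2 ^ (K + 2) * 2 ^ ((2 * e₀ - N) * J) * (2 ^ W) ^ i := by
        have e2 : (2 : ℝ) ^ ((e₀ + i * b) * J) * (2 * 2 ^ (-((p - e₀) * J))) =
            2 ^ ((e₀ + i * b) * J + (1 + -((p - e₀) * J))) := by
          rw [Real.rpow_add (by norm_num), Real.rpow_add (by norm_num), Real.rpow_one]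
        have e3 : (2 : ℝ) ^ (K + 2) * 2 ^ ((2 * e₀ - N) * J) * (2 ^ W) ^ i =
            2 ^ (((K + 2 : ℕ) : ℝ) + (2 * e₀ - N) * J + W * i) := by
          rw [Real.rpow_add (by norm_num), Real.rpow_add (by norm_num), Real.rpow_natCast,
            ← Nat.cast_mul, Real.rpow_natCast, pow_mul]
        rw [e2, e3]
        refine Real.rpow_le_rpow_of_exponent_le (by norm_num) ?_
        have h5 : (i : ℝ) * (w * J) ≤ i * (W + 1) :=
          mul_le_mul_of_nonneg_left hWw (Nat.cast_nonneg i)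
        have h6 : (i : ℝ) + 1 ≤ ((K + 2 : ℕ) : ℝ) := by exact_mod_cast hi
        have h7 : (2 : ℝ) ≤ i := by exact_mod_cast ha.trans hai
        have h8 : 2 * ((w - b) * J) ≤ i * ((w - b) * J) :=
          mul_le_mul_of_nonneg_right h7 (mul_nonneg (by linarith) hJ0)
        have h9 : N * J ≤ (p + 2 * (w - b)) * J := mul_le_mul_of_nonneg_right hN hJ0
        nlinarith
      calc |ojet F κ i (G (z' (slam F wb ω))) ω|
          ≤ 2 ^ ((e₀ + i * b) * J) * (1 / 2 ^ ⌊(p - e₀) * J⌋₊) := h2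
        _ ≤ 2 ^ ((e₀ + i * b) * J) * (2 * 2 ^ (-((p - e₀) * J))) :=
            mul_le_mul_of_nonneg_left h3 (by positivity)
        _ ≤ 2 ^ (K + 2) * 2 ^ ((2 * e₀ - N) * J) * (2 ^ W) ^ i := h4
        _ ≤ 2 ^ (K + 2) * 2 ^ ((2 * e₀ - N) * J) * ((i.factorial : ℝ) * (2 ^ W) ^ i) := by
            refine mul_le_mul_of_nonneg_left ?_ (by positivity)
            nlinarith [(by positivity : (0 : ℝ) < (2 ^ W) ^ i)]
    have h2 := co_le (hQd ω) (rt_abs F W ω) (by positivity) h1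
    rw [abs_mul, abs_of_pos hσ0]
    calc σ * |(Q ω).coeff a| ≤ 2 ^ (N * J) * (2 ^ (K + 1 + 1) *
          (2 ^ (K + 2) * 2 ^ ((2 * e₀ - N) * J))) :=
          mul_le_mul hσ h2 (abs_nonneg _) (by positivity)
      _ = 2 ^ (2 * K + 4) * (2 ^ (N * J) * 2 ^ ((2 * e₀ - N) * J)) := by ring
      _ = C * 2 ^ (2 * e₀ * J) := by
          rw [hC, ← Real.rpow_add (by norm_num)]
          congr 2
          ring
  -- one code
  obtain ⟨D, hD⟩ : ∃ D : ℝ, D = 2 * (C * 2 ^ (2 * e₀ * J)) := ⟨_, rfl⟩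
  have hp1 : (1 : ℝ) ≤ 2 ^ (2 * e₀ * J) := Real.one_le_rpow (by norm_num) (by positivity)
  have hCp : 1 ≤ C * 2 ^ (2 * e₀ * J) := one_le_mul_of_one_le_of_one_le hC1 hp1
  have hone : ∀ a : Fin (K + 1 + 1), CH (Pool.Agent.H49.Ent.cond F.p A True)
      (fun ω => cod F W 2 (K + 1) σ κ (fun s => z' (upw ⌊b * J⌋₊ W s)) G ω a) F.W ≤
        Real.log 2 + Real.log (2 * D + 1) + ((K : ℝ) + 2) * η * (M * J) := by
    intro a
    have hval : ∀ ω, cod F W 2 (K + 1) σ κ (fun s => z' (upw ⌊b * J⌋₊ W s)) G ω a =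
        if 2 ≤ (a : ℕ) then ⌊σ * (Q ω).coeff a⌋ else 0 := by
      intro ω
      unfold cod
      rw [hQ, hwb]
    refine CH_near hlaw _ F.W (fun _ => 0) Bad hPB (by positivity) (by rw [hD]; linarith) ?_ ?_
    · have hcc : ((cnt (Pool.Agent.H49.Ent.cond F.p A True)
          (fun ω => cod F W 2 (K + 1) σ κ (fun s => z' (upw ⌊b * J⌋₊ W s)) G ω a)
          (fun _ => True) : ℕ) : ℝ) ≤ ((cnt F.p (fun ω =>
            cod F W 2 (K + 1) σ κ (fun s => z' (upw ⌊b * J⌋₊ W s)) G ω a) A : ℕ) : ℝ) := by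
        exact_mod_cast cnt_cond_le F.isLaw (fun ω =>
          cod F W 2 (K + 1) σ κ (fun s => z' (upw ⌊b * J⌋₊ W s)) G ω a) A
      refine hcc.trans ?_
      have hbd : ∀ ω, A ω → |((cod F W 2 (K + 1) σ κ (fun s => z' (upw ⌊b * J⌋₊ W s)) G ω a : ℤ) :
          ℝ)| ≤ C * 2 ^ (B * J) + 1 := by
        intro ω hω
        rw [hval]
        split_ifs with ha
        swap
        · rw [Int.cast_zero, abs_zero]
          positivity
        have h1 : |σ * (Q ω).coeff a| ≤ C * 2 ^ (B * J) := by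
          rw [abs_mul, abs_of_pos hσ0]
          calc σ * |(Q ω).coeff a| ≤ 2 ^ (N * J) * (C * 2 ^ (E * J)) :=
                mul_le_mul hσ (hbig ω hω a) (abs_nonneg _) (by positivity)
            _ = C * 2 ^ (N * J + E * J) := by
                rw [Real.rpow_add (by norm_num)]
                ring
            _ ≤ C * 2 ^ (B * J) := by
                refine mul_le_mul_of_nonneg_left (Real.rpow_le_rpow_of_exponent_le (by norm_num) ?_)
                  (by linarith)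
                rw [hB]
                have h6 : N * J ≤ |N| * J := mul_le_mul_of_nonneg_right (le_abs_self N) hJ0
                have h7 : E * J ≤ |E| * J := mul_le_mul_of_nonneg_right (le_abs_self E) hJ0
                linarith
        have c1 := Int.floor_le (σ * (Q ω).coeff a)
        have c2 := Int.lt_floor_add_one (σ * (Q ω).coeff a)
        rw [abs_le] at h1 ⊢
        constructor <;> linarith [h1.1, h1.2]
      have h2 := cnt_le_of_abs (p := F.p) (u := fun ω =>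
        cod F W 2 (K + 1) σ κ (fun s => z' (upw ⌊b * J⌋₊ W s)) G ω a) (A := A)
        (by positivity) hbd
      refine h2.trans ?_
      have hpB : (1 : ℝ) ≤ 2 ^ (B * J) := Real.one_le_rpow (by norm_num) (by positivity)
      have hCB : 1 ≤ C * 2 ^ (B * J) := one_le_mul_of_one_le_of_one_le hC1 hpB
      have h4 : 2 * (C * 2 ^ (B * J) + 1) + 1 ≤ 5 * C * 2 ^ (B * J) := by linarith
      refine h4.trans ?_
      have e4 : (5 : ℝ) * C * 2 ^ (B * J) = Real.exp (Real.log (5 * C) + B * J * Real.log 2) := by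
        rw [Real.exp_add, Real.exp_log (by linarith), Real.rpow_def_of_pos (by norm_num)]
        congr 2
        ring
      rw [e4]
      refine Real.exp_le_exp.2 ?_
      have h5 : Real.log (5 * C) ≤ J := by
        have h6 : Real.log 2 + Real.log (5 * C) + Real.log (4 * C) ≤ 1 * J :=
          hJ2.trans (mul_le_mul_of_nonneg_right (min_le_right _ _) hJ0)
        linarith
      have h7 : B * J * Real.log 2 ≤ B * J * 1 := mul_le_mul_of_nonneg_left hl21 (by positivity)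
      rw [hM]
      nlinarith
    · intro ω hω hnb
      rw [hval, sub_zero, hD]
      split_ifs with ha
      swap
      · rw [Int.cast_zero, abs_zero]
        positivity
      have h1 := hsml ω hnb a ha
      have c1 := Int.floor_le (σ * (Q ω).coeff a)
      have c2 := Int.lt_floor_add_one (σ * (Q ω).coeff a)
      rw [abs_le] at h1 ⊢
      constructor <;> linarith [h1.1, h1.2]
  -- all codes
  refine (CH_fam hlaw.nonneg _ F.W).trans ?_
  refine (Finset.sum_le_sum fun a _ => hone a).trans ?_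
  rw [Finset.sum_const, Finset.card_univ, Fintype.card_fin, nsmul_eq_mul]
  have h1 : Real.log (2 * D + 1) ≤ Real.log (5 * C) + 2 * e₀ * J := by
    have e1 : 2 * D + 1 ≤ 5 * C * 2 ^ (2 * e₀ * J) := by
      rw [hD]
      linarith
    refine (Real.log_le_log (by rw [hD]; positivity) e1).trans ?_
    rw [Real.log_mul (by positivity) (by positivity), Real.log_rpow (by norm_num)]
    have : 2 * e₀ * J * Real.log 2 ≤ 2 * e₀ * J * 1 :=
      mul_le_mul_of_nonneg_left hl21 (by positivity)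
    linarith
  have h2 : ((K : ℝ) + 2) * η * (M * J) = ε / (4 * ((K : ℝ) + 2)) * J := by
    rw [hη]
    field_simp
  have h3 : 2 * e₀ * J = ε / (4 * ((K : ℝ) + 2)) * J := by
    have h3' : 2 * e₀ = ε / (4 * ((K : ℝ) + 2)) := by
      rw [he, eq_div_iff (by positivity), mul_comm (2 : ℝ), mul_assoc, div_mul_eq_mul_div,
        div_eq_iff (by positivity)]
      ring
    rw [h3']
  rw [h2]
  have h4 : Real.log 2 + Real.log (2 * D + 1) + ε / (4 * ((K : ℝ) + 2)) * J ≤
      3 * (ε / (4 * ((K : ℝ) + 2)) * J) := by linarith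
  have e5 : ((K + 1 + 1 : ℕ) : ℝ) = (K : ℝ) + 2 := by push_cast; ring
  rw [e5]
  calc ((K : ℝ) + 2) * (Real.log 2 + Real.log (2 * D + 1) + ε / (4 * ((K : ℝ) + 2)) * J)
      ≤ ((K : ℝ) + 2) * (3 * (ε / (4 * ((K : ℝ) + 2)) * J)) :=
        mul_le_mul_of_nonneg_left h4 hK2.le
    _ = 3 / 4 * ε * J := by
        field_simp
    _ ≤ ε * J := by nlinarith [mul_nonneg hε.le hJ0]

end Pool.V0C62
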